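import Mathlib

/-!
Ranks of sets in a finite matroid as natural numbers, separators, components.
-/

set_option autoImplicit false

namespace Pool.Agent.Y366.LPM

open Set

variable {α : Type*} {M : Matroid α}

/-- the rank of a set, as a natural number -/
noncomputable def rk (M : Matroid α) (X : Set α) : ℕ := (M.eRk X).toNat

section
variable [M.Finite]

theorem coe_rk (X : Set α) : ((rk M X : ℕ) : ℕ∞) = M.eRk X :=
  ENat.coe_toNat (M.eRk_ne_top_iff.2 (M.isRkFinite_set X))

theorem rk_mono {X Y : Set α} (h : X ⊆ Y) : rk M X ≤ rk M Y := by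
  have := M.eRk_mono h
  rw [← coe_rk, ← coe_rk] at this
  exact_mod_cast this

theorem rk_submod (X Y : Set α) : rk M (X ∩ Y) + rk M (X ∪ Y) ≤ rk M X + rk M Y := by
  have := M.eRk_inter_add_eRk_union_le X Y
  rw [← coe_rk, ← coe_rk, ← coe_rk, ← coe_rk] at this
  exact_mod_cast this

theorem rk_union_le (X Y : Set α) : rk M (X ∪ Y) ≤ rk M X + rk M Y := by
  have := rk_submod (M := M) X Y
  omega

theorem rk_indep {I : Set α} (h : M.Indep I) : rk M I = I.ncard := by
  unfold rk
  rw [h.eRk_eq_encard]
  rfl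

theorem ncard_le_rk {I X : Set α} (h : M.Indep I) (hX : I ⊆ X) : I.ncard ≤ rk M X := by
  rw [← rk_indep h]
  exact rk_mono hX

theorem finite_sub {X : Set α} (h : X ⊆ M.E) : X.Finite := M.ground_finite.subset h

theorem indep_of_ncard_le {X : Set α} (hX : X ⊆ M.E) (h : X.ncard ≤ rk M X) : M.Indep X := by
  refine (M.isRkFinite_set X).indep_of_encard_le_eRk ?_
  rw [← coe_rk, ← (finite_sub hX).cast_ncard_eq]
  exact_mod_cast h

theorem rk_circuit {C : Set α} (h : M.IsCircuit C) : rk M C + 1 = C.ncard := by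
  have := h.eRk_add_one_eq
  rw [← coe_rk, ← (finite_sub h.subset_ground).cast_ncard_eq] at this
  exact_mod_cast this

theorem rk_closure (X : Set α) : rk M (M.closure X) = rk M X := by
  unfold rk
  rw [M.eRk_closure_eq]

theorem rk_eq_of_subset_closure {X Y : Set α} (h : X ⊆ Y) (h' : Y ⊆ M.closure X) :
    rk M Y = rk M X := by
  refine le_antisymm ?_ (rk_mono h)
  rw [← rk_closure X]
  exact rk_mono h'

theorem subset_closure_of_rk_le {X Y : Set α} (h : X ⊆ Y) (hY : Y ⊆ M.E)
    (hr : rk M Y ≤ rk M X) : Y ⊆ M.closure X := by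
  have h1 : M.closure X = M.closure Y := by
    refine (M.isRkFinite_set X).closure_eq_closure_of_subset_of_eRk_ge_eRk h ?_
    rw [← coe_rk, ← coe_rk]
    exact_mod_cast hr
  rw [h1]
  exact M.subset_closure Y hY

theorem basis_of {I X : Set α} (hI : M.Indep I) (hX : I ⊆ X) (hXE : X ⊆ M.E)
    (h : rk M X ≤ I.ncard) : M.IsBasis I X := by
  refine hI.isBasis_of_subset_of_subset_closure hX ?_
  exact subset_closure_of_rk_le hX hXE (by rwa [rk_indep hI])

theorem ncard_basis {I X : Set α} (h : M.IsBasis I X) : I.ncard = rk M X := by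
  rw [← rk_indep h.indep]
  exact (rk_eq_of_subset_closure h.subset h.subset_closure).symm

end

/-- a set of elements such that every circuit inside `T` lies in the set or is disjoint from it -/
def Splits (M : Matroid α) (S T : Set α) : Prop :=
  ∀ C, M.IsCircuit C → C ⊆ T → C ⊆ S ∨ Disjoint C S

theorem rk_splits [M.Finite] {S T : Set α} (hT : T ⊆ M.E) (hS : S ⊆ T) (h : Splits M S T) :
    rk M T = rk M S + rk M (T \ S) := by
  refine le_antisymm ?_ ?_
  · have := rk_union_le (M := M) S (T \ S)
    rwa [Set.union_sdiff_cancel hS] at this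
  · obtain ⟨I, hI⟩ := M.exists_isBasis S (hS.trans hT)
    obtain ⟨J, hJ⟩ := M.exists_isBasis (T \ S) (sdiff_subset.trans hT)
    have hd : Disjoint I J := by
      refine Disjoint.mono hI.subset hJ.subset disjoint_sdiff_right
    have hIJ : M.Indep (I ∪ J) := by
      by_contra hdep
      have hE : I ∪ J ⊆ M.E := union_subset (hI.subset.trans (hS.trans hT))
        (hJ.subset.trans (sdiff_subset.trans hT))
      obtain ⟨C, hC, hCi⟩ := ((M.not_indep_iff hE).1 hdep).exists_isCircuit_subset
      have hCT : C ⊆ T := hC.trans (union_subset (hI.subset.trans hS) (hJ.subset.trans sdiff_subset))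
      rcases h C hCi hCT with h1 | h1
      · refine hCi.not_indep (hI.indep.subset ?_)
        intro x hx
        rcases hC hx with h2 | h2
        · exact h2
        · exact absurd (h1 hx) (hJ.subset h2).2
      · refine hCi.not_indep (hJ.indep.subset ?_)
        intro x hx
        rcases hC hx with h2 | h2
        · exact absurd (hI.subset h2) (disjoint_left.1 h1 hx)
        · exact h2
    have h1 := ncard_basis hI
    have h2 := ncard_basis hJ
    rw [← h1, ← h2, ← ncard_union_eq hd (finite_sub hI.indep.subset_ground)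
      (finite_sub hJ.indep.subset_ground)]
    exact ncard_le_rk hIJ (union_subset (hI.subset.trans hS) (hJ.subset.trans sdiff_subset))

theorem splits_of_rk [M.Finite] {S T : Set α} (hT : T ⊆ M.E) (hS : S ⊆ T)
    (h : rk M S + rk M (T \ S) ≤ rk M T) : Splits M S T := by
  intro C hC hCT
  by_contra hcon
  push Not at hcon
  obtain ⟨h1, h2⟩ := hcon
  have hCS : M.Indep (C ∩ S) := by
    refine hC.ssubset_indep ⟨inter_subset_left, fun h3 => h1 fun x hx => (h3 hx).2⟩
  have hCT' : M.Indep (C \ S) := by
    refine hC.ssubset_indep ⟨sdiff_subset, fun h3 => h2 ?_⟩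
    rw [disjoint_left]
    intro x hx
    exact (h3 hx).2
  obtain ⟨I, hI, hI'⟩ := hCS.subset_isBasis_of_subset inter_subset_right (hS.trans hT)
  obtain ⟨J, hJ, hJ'⟩ := hCT'.subset_isBasis_of_subset
    (show C \ S ⊆ T \ S from sdiff_subset_sdiff_left hCT) (sdiff_subset.trans hT)
  have hE : I ∪ J ⊆ M.E := union_subset (hI.subset.trans (hS.trans hT))
    (hJ.subset.trans (sdiff_subset.trans hT))
  have hcl : T ⊆ M.closure (I ∪ J) := by
    intro x hx
    by_cases hxS : x ∈ S
    · exact M.closure_subset_closure subset_union_left (hI.subset_closure hxS)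
    · exact M.closure_subset_closure subset_union_right (hJ.subset_closure ⟨hx, hxS⟩)
  have hr : rk M T ≤ rk M (I ∪ J) := by
    rw [← rk_closure (I ∪ J)]
    exact rk_mono hcl
  have hn : (I ∪ J).ncard ≤ I.ncard + J.ncard := ncard_union_le I J
  rw [ncard_basis hI, ncard_basis hJ] at hn
  have hind : M.Indep (I ∪ J) := indep_of_ncard_le hE (by omega)
  refine hC.not_indep (hind.subset fun x hx => ?_)
  by_cases hxS : x ∈ S
  · exact Or.inl (hI' ⟨hx, hxS⟩)
  · exact Or.inr (hJ' ⟨hx, hxS⟩)

end Pool.Agent.Y366.LPM
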