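import Pool.Agent.Y366.LPM.Path

/-!
Separators and components of a matroid; the property `Theta` of a component.
-/

set_option autoImplicit false

namespace Pool.Agent.Y366.LPM

open Set

variable {α : Type*} {M : Matroid α}

/-- a separator: a set of elements such that every circuit is inside it or disjoint from it -/
def Sep (M : Matroid α) (S : Set α) : Prop := S ⊆ M.E ∧ Splits M S M.E

/-- a component: a minimal nonempty separator -/
def Comp (M : Matroid α) (K : Set α) : Prop :=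
  Sep M K ∧ K ≠ ∅ ∧ ∀ S, S ⊆ M.E → Sep M S → S ⊆ K → S ≠ ∅ → K ⊆ S

/-- a set that is not split by a proper nonempty subset -/
def Conn (M : Matroid α) (F : Set α) : Prop :=
  ∀ S, S ⊆ M.E → S ⊆ F → S ≠ ∅ → Splits M S F → F ⊆ S

/-- closed relative to `K` -/
def ClosedIn (M : Matroid α) (K F : Set α) : Prop := M.closure F ∩ K ⊆ F

/-- the connected relatively closed subsets of `K` containing `e` -/
def Fam (M : Matroid α) (K e F : Set α) : Prop :=
  F ⊆ K ∧ e ⊆ F ∧ Conn M F ∧ ClosedIn M K F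

/-- modular equality for `F` and `G` over `C`, in terms of bases -/
def Mod (M : Matroid α) (C F G : Set α) : Prop :=
  ∃ I, I ⊆ M.E ∧ ∃ J, J ⊆ M.E ∧ M.IsBasis I F ∧ M.IsBasis J G ∧ M.Indep (I ∪ J) ∧ I ∩ J ⊆ C

/-- any two members of the family are comparable -/
def IsCh (M : Matroid α) (K e : Set α) : Prop :=
  ∀ F, F ⊆ M.E → Fam M K e F → ∀ F', F' ⊆ M.E → Fam M K e F' → F ⊆ F' ∨ F' ⊆ F

/-- the crossing condition -/
def Crs (M : Matroid α) (K e0 e1 : Set α) : Prop :=
  ∀ F, F ⊆ M.E → Fam M K e0 F → ∀ G, G ⊆ M.E → Fam M K e1 G → F ∩ G = ∅ ∨ K ⊆ F ∪ G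

/-- the circuit condition -/
def Cov (M : Matroid α) (K e0 e1 : Set α) : Prop :=
  ∀ C, C ⊆ M.E → M.IsCircuit C → C ⊆ K →
    ∃ F, F ⊆ M.E ∧ ∃ G, G ⊆ M.E ∧ Fam M K e0 F ∧ Fam M K e1 G ∧ C ⊆ F ∧ C ⊆ G ∧ Mod M C F G

/-- the defining property, for one component -/
def Theta (M : Matroid α) (K : Set α) : Prop :=
  ∃ x ∈ M.E, ∃ y ∈ M.E, ({x} : Set α) ⊆ K ∧ ({y} : Set α) ⊆ K ∧
    IsCh M K {x} ∧ IsCh M K {y} ∧ Crs M K {x} {y} ∧ Cov M K {x} {y}

theorem Sep.circuit {S C : Set α} (h : Sep M S) (hC : M.IsCircuit C) : C ⊆ S ∨ Disjoint C S :=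
  h.2 C hC hC.subset_ground

theorem Sep.sub_of_mem {S C : Set α} (h : Sep M S) (hC : M.IsCircuit C) {x : α} (hx : x ∈ C)
    (hxS : x ∈ S) : C ⊆ S := by
  rcases h.circuit hC with h1 | h1
  · exact h1
  · exact absurd hxS (disjoint_left.1 h1 hx)

theorem Sep.compl {S : Set α} (h : Sep M S) : Sep M (M.E \ S) := by
  refine ⟨sdiff_subset, fun C hC _ => ?_⟩
  rcases h.circuit hC with h1 | h1
  · right
    exact disjoint_sdiff_right.mono_left h1
  · left
    exact fun x hx => ⟨hC.subset_ground hx, disjoint_left.1 h1 hx⟩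

theorem Sep.inter {S T : Set α} (h : Sep M S) (h' : Sep M T) : Sep M (S ∩ T) := by
  refine ⟨inter_subset_left.trans h.1, fun C hC _ => ?_⟩
  rcases h.circuit hC with h1 | h1
  · rcases h'.circuit hC with h2 | h2
    · exact Or.inl (subset_inter h1 h2)
    · exact Or.inr (h2.mono_right inter_subset_right)
  · exact Or.inr (h1.mono_right inter_subset_left)

theorem Sep.rk_add [M.Finite] {S X : Set α} (h : Sep M S) (hX : X ⊆ M.E) :
    rk M X = rk M (X ∩ S) + rk M (X \ S) := by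
  have h1 := rk_splits (M := M) hX (inter_subset_left (s := X) (t := S)) (by
    intro C hC hCX
    rcases h.circuit hC with h1 | h1
    · exact Or.inl (subset_inter hCX h1)
    · exact Or.inr (h1.mono_right inter_subset_right))
  have h2 : X \ (X ∩ S) = X \ S := by
    ext x
    simp only [mem_sdiff, mem_inter_iff]
    tauto
  rwa [h2] at h1

/-- the component of an element -/
def compOf (M : Matroid α) (x : α) : Set α := {y ∈ M.E | ∀ S, Sep M S → x ∈ S → y ∈ S}

theorem mem_compOf {x : α} (hx : x ∈ M.E) : x ∈ compOf M x := ⟨hx, fun _ _ h => h⟩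

theorem compOf_sub (x : α) : compOf M x ⊆ M.E := fun _ hx => hx.1

theorem compOf_subset {S : Set α} {x : α} (hS : Sep M S) (hx : x ∈ S) : compOf M x ⊆ S :=
  fun _ hy => hy.2 S hS hx

theorem sep_compOf (x : α) : Sep M (compOf M x) := by
  refine ⟨compOf_sub x, fun C hC _ => ?_⟩
  by_cases h : ∃ y ∈ C, y ∈ compOf M x
  · left
    obtain ⟨y, hy, hy2⟩ := h
    intro z hz
    exact ⟨hC.subset_ground hz, fun S hS hxS => hS.sub_of_mem hC hy (hy2.2 S hS hxS) hz⟩
  · right
    rw [disjoint_left]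
    intro y hy hy2
    exact h ⟨y, hy, hy2⟩

theorem comp_compOf {x : α} (hx : x ∈ M.E) : Comp M (compOf M x) := by
  refine ⟨sep_compOf x, nonempty_iff_ne_empty.1 ⟨x, mem_compOf hx⟩, fun S hSE hS hSK hne => ?_⟩
  by_cases h : x ∈ S
  · exact compOf_subset hS h
  · exfalso
    obtain ⟨y, hy⟩ := nonempty_iff_ne_empty.2 hne
    have := compOf_subset hS.compl ⟨hx, h⟩ (hSK hy)
    exact this.2 hy

theorem Comp.eq_of_mem {K K' : Set α} (h : Comp M K) (h' : Comp M K') {x : α} (hx : x ∈ K)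
    (hx' : x ∈ K') : K = K' := by
  have h1 : Sep M (K ∩ K') := h.1.inter h'.1
  have h2 : K ∩ K' ≠ ∅ := nonempty_iff_ne_empty.1 ⟨x, hx, hx'⟩
  have h3 := h.2.2 _ h1.1 h1 inter_subset_left h2
  have h4 := h'.2.2 _ h1.1 h1 inter_subset_right h2
  exact Subset.antisymm (fun y hy => (h3 hy).2) (fun y hy => (h4 hy).1)

theorem compOf_eq {x y : α} (hx : x ∈ M.E) (hy : y ∈ compOf M x) : compOf M y = compOf M x :=
  (comp_compOf hy.1).eq_of_mem (comp_compOf hx) (mem_compOf hy.1) hy

theorem Splits.symm {S T : Set α} (h : Splits M S T) : Splits M (T \ S) T := by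
  intro C hC hCT
  rcases h C hC hCT with h1 | h1
  · right
    exact disjoint_sdiff_right.mono_left h1
  · left
    exact fun x hx => ⟨hCT hx, disjoint_left.1 h1 hx⟩

/-- a subset splitting a separator is a separator -/
theorem Sep.of_splits {S K : Set α} (hK : Sep M K) (hS : S ⊆ K) (h : Splits M S K) : Sep M S := by
  refine ⟨hS.trans hK.1, fun C hC _ => ?_⟩
  rcases hK.circuit hC with h1 | h1
  · exact h C hC h1
  · exact Or.inr (h1.mono_right hS)

end Pool.Agent.Y366.LPM
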