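import Pool.Agent.Y366.LPM.Comp

/-!
The components of a lattice path matroid satisfy `Theta`.
-/

set_option autoImplicit false

namespace Pool.Agent.Y366.LPM

open Set

variable {α : Type*} {M : Matroid α}

/-- the linear order criterion inside a set -/
def LK {L : Type*} [LinearOrder L] (M : Matroid α) (K : Set α) (κ : α → L) : Prop :=
  InjOn κ K ∧ ∀ C, M.IsCircuit C → C ⊆ K → ∀ a ∈ C, ∀ b ∈ C,
    (∀ x ∈ C, κ a ≤ κ x ∧ κ x ≤ κ b) →
    rk M {x ∈ K | κ x ≤ κ b} + rk M {x ∈ K | κ a ≤ κ x} ≤ rk M C + rk M K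

theorem LO.LK [M.Finite] {L : Type*} [LinearOrder L] {κ : α → L} (h : LO M κ) {K : Set α}
    (hK : Sep M K) : LK M K κ := by
  refine ⟨h.1.mono hK.1, fun C hC hCK a ha b hb hab => ?_⟩
  have h1 := h.2 C hC a ha b hb hab
  have hpreE : {x ∈ M.E | κ x ≤ κ b} ⊆ M.E := fun x hx => hx.1
  have hsufE : {x ∈ M.E | κ a ≤ κ x} ⊆ M.E := fun x hx => hx.1
  rw [hK.rk_add hpreE, hK.rk_add hsufE, hK.rk_add (Subset.refl M.E)] at h1
  have h2 : {x ∈ M.E | κ x ≤ κ b} ∩ K = {x ∈ K | κ x ≤ κ b} := by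
    ext x
    constructor
    · rintro ⟨⟨h3, h4⟩, h5⟩
      exact ⟨h5, h4⟩
    · rintro ⟨h3, h4⟩
      exact ⟨⟨hK.1 h3, h4⟩, h3⟩
  have h3 : {x ∈ M.E | κ a ≤ κ x} ∩ K = {x ∈ K | κ a ≤ κ x} := by
    ext x
    constructor
    · rintro ⟨⟨h3, h4⟩, h5⟩
      exact ⟨h5, h4⟩
    · rintro ⟨h3, h4⟩
      exact ⟨⟨hK.1 h3, h4⟩, h3⟩
  have h4 : M.E ∩ K = K := inter_eq_right.2 hK.1
  have h5 : rk M (M.E \ K) ≤
      rk M ({x ∈ M.E | κ x ≤ κ b} \ K) + rk M ({x ∈ M.E | κ a ≤ κ x} \ K) := by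
    refine (rk_mono ?_).trans (rk_union_le _ _)
    rintro x ⟨hx, hxK⟩
    rcases le_total (κ x) (κ b) with h6 | h6
    · exact Or.inl ⟨⟨hx, h6⟩, hxK⟩
    · exact Or.inr ⟨⟨hx, (hab b hb).1.trans h6⟩, hxK⟩
  rw [h2, h3, h4] at h1
  omega

theorem LK.dual {L : Type*} [LinearOrder L] {κ : α → L} {K : Set α} (h : LK M K κ) :
    LK M K (fun x => OrderDual.toDual (κ x)) := by
  refine ⟨fun x hx y hy hxy => h.1 hx hy (OrderDual.toDual.injective hxy),
    fun C hC hCK a ha b hb hab => ?_⟩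
  have := h.2 C hC hCK b hb a ha (fun x hx => ⟨(hab x hx).2, (hab x hx).1⟩)
  rw [add_comm]
  exact this

section

variable [M.Finite] {L : Type*} [LinearOrder L] {κ : α → L} {K : Set α}

/-- the interval spanned by a circuit is in its closure -/
theorem LK.mem_closure (h : LK M K κ) (hK : K ⊆ M.E) {C : Set α} (hC : M.IsCircuit C)
    (hCK : C ⊆ K) {a b : α} (ha : a ∈ C) (hb : b ∈ C) (hab : ∀ x ∈ C, κ a ≤ κ x ∧ κ x ≤ κ b)
    {x : α} (hx : x ∈ K) (hax : κ a ≤ κ x) (hxb : κ x ≤ κ b) : x ∈ M.closure C := by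
  have h1 := h.2 C hC hCK a ha b hb hab
  have h2 := rk_submod (M := M) {x ∈ K | κ x ≤ κ b} {x ∈ K | κ a ≤ κ x}
  have h3 : rk M K ≤ rk M ({x ∈ K | κ x ≤ κ b} ∪ {x ∈ K | κ a ≤ κ x}) := by
    refine rk_mono fun y hy => ?_
    rcases le_total (κ y) (κ b) with h6 | h6
    · exact Or.inl ⟨hy, h6⟩
    · exact Or.inr ⟨hy, (hab b hb).1.trans h6⟩
  have h4 : {x ∈ K | κ x ≤ κ b} ∩ {x ∈ K | κ a ≤ κ x} ⊆ M.closure C := by
    refine subset_closure_of_rk_le ?_ (fun y hy => hK hy.1.1) (by omega)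
    intro y hy
    exact ⟨⟨hCK hy, (hab y hy).2⟩, ⟨hCK hy, (hab y hy).1⟩⟩
  exact h4 ⟨⟨hx, hxb⟩, ⟨hx, hax⟩⟩

theorem exists_min {C : Set α} (hC : C ⊆ M.E) (hne : C.Nonempty) (κ : α → L) :
    ∃ a ∈ C, ∀ x ∈ C, κ a ≤ κ x := by
  obtain ⟨a, ha, ha2⟩ := (finite_sub hC).exists_minimalFor κ C hne
  refine ⟨a, ha, fun x hx => ?_⟩
  by_contra hlt'
  exact hlt' (ha2 hx (le_of_not_ge hlt'))

theorem exists_max {C : Set α} (hC : C ⊆ M.E) (hne : C.Nonempty) (κ : α → L) :
    ∃ a ∈ C, ∀ x ∈ C, κ x ≤ κ a := by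
  obtain ⟨a, ha, ha2⟩ := (finite_sub hC).exists_maximalFor κ C hne
  refine ⟨a, ha, fun x hx => ?_⟩
  by_contra hlt'
  exact hlt' (ha2 hx (le_of_not_ge hlt'))

/-- members of the family are prefixes -/
theorem LK.down (h : LK M K κ) (hK : K ⊆ M.E) {e0 : α} (he0 : e0 ∈ K)
    (hmin : ∀ x ∈ K, κ e0 ≤ κ x) {F : Set α} (hF : Fam M K {e0} F) {x y : α} (hx : x ∈ F)
    (hy : y ∈ K) (hyx : κ y ≤ κ x) : y ∈ F := by
  obtain ⟨hFK, heF, hconn, hcl⟩ := hF
  by_contra hyF
  have he0F : e0 ∈ F := heF rfl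
  have h1 : κ e0 < κ y := by
    refine lt_of_le_of_ne (hmin y hy) fun heq => ?_
    exact hyF (h.1 he0 hy heq ▸ he0F)
  have h2 : κ y < κ x := by
    refine lt_of_le_of_ne hyx fun heq => ?_
    exact hyF ((h.1 hy (hFK hx) heq).symm ▸ hx)
  have h3 : ¬ Splits M {z ∈ F | κ z < κ y} F := by
    intro hs
    have hne : ({z ∈ F | κ z < κ y} : Set α).Nonempty := ⟨e0, he0F, h1⟩
    have := hconn {z ∈ F | κ z < κ y} (fun z hz => hK (hFK hz.1)) (fun z hz => hz.1)
      (nonempty_iff_ne_empty.1 hne) hs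
    exact lt_asymm (this hx).2 h2
  unfold Splits at h3
  push Not at h3
  obtain ⟨C, hC, hCF, h4, h5⟩ := h3
  have hCK := hCF.trans hFK
  obtain ⟨a, ha, hamin⟩ := exists_min hC.subset_ground hC.nonempty κ
  obtain ⟨b, hb, hbmax⟩ := exists_max hC.subset_ground hC.nonempty κ
  have hay : κ a ≤ κ y := by
    rw [not_disjoint_iff] at h5
    obtain ⟨z, hz, hz2⟩ := h5
    exact (hamin z hz).trans hz2.2.le
  have hyb : κ y ≤ κ b := by
    rw [not_subset] at h4
    obtain ⟨z, hz, hz2⟩ := h4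
    have : ¬ κ z < κ y := fun h => hz2 ⟨hCF hz, h⟩
    exact (not_lt.1 this).trans (hbmax z hz)
  have hycl := h.mem_closure hK hC hCK ha hb (fun x hx => ⟨hamin x hx, hbmax x hx⟩) hy hay hyb
  exact hyF (hcl ⟨M.closure_subset_closure hCF hycl, hy⟩)

theorem LK.isCh (h : LK M K κ) (hK : K ⊆ M.E) {e0 : α} (he0 : e0 ∈ K)
    (hmin : ∀ x ∈ K, κ e0 ≤ κ x) : IsCh M K {e0} := by
  intro F _ hF F' _ hF'
  by_contra hcon
  push Not at hcon
  obtain ⟨h1, h2⟩ := hcon
  rw [not_subset] at h1 h2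
  obtain ⟨x, hx, hxF'⟩ := h1
  obtain ⟨y, hy, hyF⟩ := h2
  rcases le_total (κ x) (κ y) with h3 | h3
  · exact hxF' (h.down hK he0 hmin hF' hy (hF.1 hx) h3)
  · exact hyF (h.down hK he0 hmin hF hx (hF'.1 hy) h3)

/-- the closure of a prefix up to the maximum of a circuit belongs to the family -/
theorem LK.fam (h : LK M K κ) (hK : Comp M K) {e0 : α} (he0 : e0 ∈ K)
    (hmin : ∀ x ∈ K, κ e0 ≤ κ x) {C : Set α} (hC : M.IsCircuit C)
    (hCK : C ⊆ K) {a b : α} (ha : a ∈ C) (hb : b ∈ C) (hab : ∀ x ∈ C, κ a ≤ κ x ∧ κ x ≤ κ b) :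
    Fam M K {e0} (M.closure {x ∈ K | κ x ≤ κ b} ∩ K) := by
  have hKE : K ⊆ M.E := hK.1.1
  have hpE : {x ∈ K | κ x ≤ κ b} ⊆ M.E := fun x hx => hKE hx.1
  have hpF : {x ∈ K | κ x ≤ κ b} ⊆ M.closure {x ∈ K | κ x ≤ κ b} ∩ K :=
    fun x hx => ⟨M.subset_closure _ hpE hx, hx.1⟩
  refine ⟨inter_subset_right, ?_, ?_, ?_⟩
  · rw [singleton_subset_iff]
    exact hpF ⟨he0, hmin b (hCK hb)⟩
  · -- connectedness
    obtain ⟨F, hFdef⟩ : ∃ F, F = M.closure {x ∈ K | κ x ≤ κ b} ∩ K := ⟨_, rfl⟩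
    obtain ⟨A, hAdef⟩ : ∃ A, A = {x ∈ K | κ x ≤ κ b} := ⟨_, rfl⟩
    obtain ⟨D, hDdef⟩ : ∃ D, D = {x ∈ K | κ a ≤ κ x} := ⟨_, rfl⟩
    have hLK := h.2 C hC hCK a ha b hb hab
    rw [← hFdef]
    rw [← hAdef] at hFdef hpF hpE
    rw [← hAdef, ← hDdef] at hLK
    rw [← hFdef] at hpF
    have hFK : F ⊆ K := by rw [hFdef]; exact inter_subset_right
    have hDK : D ⊆ K := by rw [hDdef]; exact fun x hx => hx.1
    have hCF : C ⊆ F := fun x hx => hpF (by rw [hAdef]; exact ⟨hCK hx, (hab x hx).2⟩)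
    have hCD : C ⊆ D := fun x hx => by rw [hDdef]; exact ⟨hCK hx, (hab x hx).1⟩
    have hrF : rk M F = rk M A := by
      refine rk_eq_of_subset_closure hpF ?_
      rw [hFdef]
      exact inter_subset_left
    have hKAD : K ⊆ F ∪ D := by
      intro x hx
      rcases le_total (κ x) (κ b) with h6 | h6
      · exact Or.inl (hpF (by rw [hAdef]; exact ⟨hx, h6⟩))
      · exact Or.inr (by rw [hDdef]; exact ⟨hx, (hab b hb).1.trans h6⟩)
    -- main claim: the part of a splitting not containing C is empty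
    have key : ∀ S, S ⊆ F → Splits M S F → C ⊆ S → F ⊆ S := by
      intro S hSF hS hCS
      have h1 := rk_splits (M := M) (hFK.trans hKE) hSF hS
      have h2 := rk_submod (M := M) S D
      have h3 : rk M C ≤ rk M (S ∩ D) := rk_mono (subset_inter hCS hCD)
      have h4 : rk M ((F \ S) \ D) ≤ rk M (F \ S) := rk_mono sdiff_subset
      have h5 : K \ ((F \ S) \ D) ⊆ S ∪ D := by
        rintro x ⟨hx, hx2⟩
        by_contra hcon
        rw [mem_union, not_or] at hcon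
        rcases hKAD hx with h6 | h6
        · exact hx2 ⟨⟨h6, hcon.1⟩, hcon.2⟩
        · exact hcon.2 h6
      have h6 := rk_mono (M := M) h5
      have hsub : (F \ S) \ D ⊆ K := sdiff_subset.trans (sdiff_subset.trans hFK)
      have h7 : Splits M ((F \ S) \ D) K := splits_of_rk hKE hsub (by omega)
      have h8 : Sep M ((F \ S) \ D) := hK.1.of_splits hsub h7
      have h9 : (F \ S) \ D = ∅ := by
        by_contra hne
        have := hK.2.2 _ h8.1 h8 hsub hne
        exact (this (hCK ha)).2 (hCD ha)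
      rw [h9, sdiff_empty] at h6
      rw [h9, rk_empty] at h4
      -- rk (F \ S) = 0
      have h10 : rk M (F \ S) = 0 := by omega
      intro x hx
      by_contra hxS
      have hxE : x ∈ M.E := hKE (hFK hx)
      have h11 : ¬ M.Indep {x} := by
        intro hind
        have := ncard_le_rk hind (singleton_subset_iff.2 (show x ∈ F \ S from ⟨hx, hxS⟩))
        rw [ncard_singleton] at this
        omega
      have h12 : M.IsCircuit {x} := by
        rw [Matroid.singleton_isCircuit]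
        rwa [← Matroid.singleton_dep, ← Matroid.not_indep_iff (singleton_subset_iff.2 hxE)]
      have h13 : Sep M {x} := by
        refine ⟨singleton_subset_iff.2 hxE, fun D' hD' _ => ?_⟩
        by_cases hxD : x ∈ D'
        · left
          have := h12.eq_of_subset_isCircuit hD' (singleton_subset_iff.2 hxD)
          rw [← this]
        · right
          rw [disjoint_singleton_right]
          exact hxD
      have h14 := hK.2.2 _ h13.1 h13 (singleton_subset_iff.2 (hFK hx)) (singleton_ne_empty x)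
      have h15 : a = x := h14 (hCK ha)
      exact hxS (h15 ▸ hCS ha)
    intro S hSE hSF hne hS
    rcases hS C hC hCF with h1 | h1
    · exact key S hSF hS h1
    · exfalso
      have h2 := key (F \ S) sdiff_subset hS.symm (fun x hx => ⟨hCF hx, disjoint_left.1 h1 hx⟩)
      obtain ⟨x, hx⟩ := nonempty_iff_ne_empty.2 hne
      exact (h2 (hSF hx)).2 hx
  · -- closedness
    rintro x ⟨hx, hxK⟩
    refine ⟨?_, hxK⟩
    have h1 := M.closure_subset_closure (inter_subset_left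
      (s := M.closure {x ∈ K | κ x ≤ κ b}) (t := K)) hx
    rwa [M.closure_closure] at h1

theorem LK.theta (h : LK M K κ) (hK : Comp M K) : Theta M K := by
  have hKE : K ⊆ M.E := hK.1.1
  have hKne : K.Nonempty := nonempty_iff_ne_empty.2 hK.2.1
  obtain ⟨e0, he0, hmin⟩ := exists_min hKE hKne κ
  obtain ⟨e1, he1, hmax⟩ := exists_max hKE hKne κ
  have hd := h.dual
  refine ⟨e0, hKE he0, e1, hKE he1, singleton_subset_iff.2 he0, singleton_subset_iff.2 he1,
    h.isCh hKE he0 hmin, hd.isCh hKE he1 hmax, ?_, ?_⟩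
  · intro F _ hF G _ hG
    by_cases hne : F ∩ G = ∅
    · exact Or.inl hne
    · right
      obtain ⟨z, hzF, hzG⟩ := nonempty_iff_ne_empty.2 hne
      intro x hx
      rcases le_total (κ x) (κ z) with h1 | h1
      · exact Or.inl (h.down hKE he0 hmin hF hzF hx h1)
      · exact Or.inr (hd.down hKE he1 hmax hG hzG hx h1)
  · intro C _ hC hCK
    obtain ⟨a, ha, hamin⟩ := exists_min hC.subset_ground hC.nonempty κ
    obtain ⟨b, hb, hbmax⟩ := exists_max hC.subset_ground hC.nonempty κ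
    have hab : ∀ x ∈ C, κ a ≤ κ x ∧ κ x ≤ κ b := fun x hx => ⟨hamin x hx, hbmax x hx⟩
    obtain ⟨A, hAdef⟩ : ∃ A, A = {x ∈ K | κ x ≤ κ b} := ⟨_, rfl⟩
    obtain ⟨D, hDdef⟩ : ∃ D, D = {x ∈ K | κ a ≤ κ x} := ⟨_, rfl⟩
    have hF := h.fam hK he0 hmin hC hCK ha hb hab
    have hG : Fam M K {e1} (M.closure {x ∈ K | κ a ≤ κ x} ∩ K) :=
      hd.fam hK he1 hmax hC hCK hb ha (fun x hx => ⟨(hab x hx).2, (hab x hx).1⟩)
    have hLK := h.2 C hC hCK a ha b hb hab
    rw [← hAdef] at hF hLK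
    rw [← hDdef] at hG hLK
    have hAK : A ⊆ K := by rw [hAdef]; exact fun x hx => hx.1
    have hDK : D ⊆ K := by rw [hDdef]; exact fun x hx => hx.1
    have hAF : A ⊆ M.closure A ∩ K := fun x hx => ⟨M.subset_closure _ (hAK.trans hKE) hx, hAK hx⟩
    have hDG : D ⊆ M.closure D ∩ K := fun x hx => ⟨M.subset_closure _ (hDK.trans hKE) hx, hDK hx⟩
    have hCA : C ⊆ A := fun x hx => by rw [hAdef]; exact ⟨hCK hx, (hab x hx).2⟩
    have hCD : C ⊆ D := fun x hx => by rw [hDdef]; exact ⟨hCK hx, (hab x hx).1⟩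
    have hrF : rk M (M.closure A ∩ K) = rk M A := rk_eq_of_subset_closure hAF inter_subset_left
    have hrG : rk M (M.closure D ∩ K) = rk M D := rk_eq_of_subset_closure hDG inter_subset_left
    refine ⟨_, hF.1.trans hKE, _, hG.1.trans hKE, hF, hG, hCA.trans hAF, hCD.trans hDG, ?_⟩
    obtain ⟨F, hFdef⟩ : ∃ F, F = M.closure A ∩ K := ⟨_, rfl⟩
    obtain ⟨G, hGdef⟩ : ∃ G, G = M.closure D ∩ K := ⟨_, rfl⟩
    rw [← hFdef] at hAF hrF ⊢
    rw [← hGdef] at hDG hrG ⊢
    have hFK : F ⊆ K := by rw [hFdef]; exact inter_subset_right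
    have hGK : G ⊆ K := by rw [hGdef]; exact inter_subset_right
    obtain ⟨I0, hI0⟩ := M.exists_isBasis C hC.subset_ground
    obtain ⟨I, hI, hI0I⟩ := hI0.indep.subset_isBasis_of_subset
      (hI0.subset.trans (hCA.trans hAF)) (hFK.trans hKE)
    obtain ⟨J, hJ, hI0J⟩ := hI0.indep.subset_isBasis_of_subset
      (hI0.subset.trans (hCD.trans hDG)) (hGK.trans hKE)
    have hIE := hI.indep.subset_ground
    have hJE := hJ.indep.subset_ground
    have hspan : K ⊆ M.closure (I ∪ J) := by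
      intro x hx
      rcases le_total (κ x) (κ b) with h6 | h6
      · have : x ∈ F := hAF (by rw [hAdef]; exact ⟨hx, h6⟩)
        exact M.closure_subset_closure subset_union_left (hI.subset_closure this)
      · have : x ∈ G := hDG (by rw [hDdef]; exact ⟨hx, (hab b hb).1.trans h6⟩)
        exact M.closure_subset_closure subset_union_right (hJ.subset_closure this)
    have hrIJ : rk M K ≤ rk M (I ∪ J) := by
      rw [← rk_closure (I ∪ J)]
      exact rk_mono hspan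
    have hrIJ' : rk M (I ∪ J) ≤ rk M K :=
      rk_mono (union_subset (hI.subset.trans hFK) (hJ.subset.trans hGK))
    have h1 := ncard_union_add_ncard_inter I J (finite_sub hIE) (finite_sub hJE)
    have h2 : I0.ncard ≤ (I ∩ J).ncard :=
      ncard_le_ncard (subset_inter hI0I hI0J) ((finite_sub hIE).subset inter_subset_left)
    rw [ncard_basis hI, ncard_basis hJ] at h1
    rw [ncard_basis hI0] at h2
    have hind : M.Indep (I ∪ J) := indep_of_ncard_le (union_subset hIE hJE) (by omega)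
    have h3 := rk_indep hind
    have h4 : I0 = I ∩ J := by
      refine eq_of_subset_of_ncard_le (subset_inter hI0I hI0J) ?_
        ((finite_sub hIE).subset inter_subset_left)
      rw [ncard_basis hI0]
      omega
    exact ⟨I, hIE, J, hJE, hI, hJ, hind, h4 ▸ hI0.subset⟩

end

/-- the characterisation of lattice path matroids -/
theorem IsLPM.theta [M.Finite] (h : IsLPM M) : ∀ K, K ⊆ M.E → Comp M K → Theta M K := by
  intro K _ hK
  obtain ⟨κ, hκ⟩ := h.exists_LO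
  exact (hκ.LK hK.1).theta hK

end Pool.Agent.Y366.LPM
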