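import Pool.Agent.Y366.LPM.Sound
import Pool.Agent.Y366.LPM.Complete
import Pool.Agent.H761R3.MS0

/-!
The property `Theta` is definable in monadic second-order logic of matroids.
-/

set_option autoImplicit false

namespace Pool.Agent.Y366.LPM

open Set Pool.Agent.H761R3.MS0

namespace Df

/-- circuits -/
theorem circ (i : ℕ) : Dfn (fun _ M v => M.IsCircuit (v i)) := by
  refine ((Dfn.ind i).not.and (((Dfn.sub 0 (i + 1)).and (Dfn.sub (i + 1) 0).not).imp
    (Dfn.ind 0)).all).iff fun α M v hv => ?_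
  simp only [cns_zero, cns_succ]
  rw [Matroid.isCircuit_iff, Matroid.not_indep_iff (hv i)]
  refine and_congr_right fun _ => ?_
  constructor
  · intro h D hD hDi
    refine Subset.antisymm hDi ?_
    by_contra hcon
    exact hD.not_indep (h D (hDi.trans (hv i)) ⟨hDi, hcon⟩)
  · rintro h S hS ⟨h1, h2⟩
    by_contra hcon
    have := h ((Matroid.not_indep_iff hS).1 hcon) h1
    exact h2 this.ge

/-- bases -/
theorem basis (i j : ℕ) : Dfn (fun _ M v => M.IsBasis (v i) (v j)) := by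
  refine (((Dfn.ind i).and (Dfn.sub i j)).and ((((Dfn.ind 0).and (Dfn.sub (i + 1) 0)).and
    (Dfn.sub 0 (j + 1))).imp (Dfn.sub 0 (i + 1))).all).iff fun α M v hv => ?_
  simp only [cns_zero, cns_succ]
  rw [Matroid.isBasis_iff (hv j)]
  constructor
  · rintro ⟨⟨h1, h2⟩, h3⟩
    refine ⟨h1, h2, fun J hJ hIJ hJX => ?_⟩
    exact Subset.antisymm hIJ (h3 J (hJX.trans (hv j)) ⟨⟨hJ, hIJ⟩, hJX⟩)
  · rintro ⟨h1, h2, h3⟩
    refine ⟨⟨h1, h2⟩, ?_⟩
    rintro S hS ⟨⟨h4, h5⟩, h6⟩
    exact (h3 S h4 h5 h6).ge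

/-- inclusion of an intersection -/
theorem interSub (i j k : ℕ) : Dfn (fun _ _ v => v i ∩ v j ⊆ v k) := by
  refine (((Dfn.sub 0 (i + 1)).and (Dfn.sub 0 (j + 1))).imp (Dfn.sub 0 (k + 1))).all.iff
    fun α M v hv => ?_
  simp only [cns_zero, cns_succ]
  constructor
  · intro h
    exact h _ (inter_subset_left.trans (hv i)) ⟨inter_subset_left, inter_subset_right⟩
  · rintro h S _ ⟨h1, h2⟩
    exact (subset_inter h1 h2).trans h

/-- empty intersections -/
theorem interEmp (i j : ℕ) : Dfn (fun _ _ v => v i ∩ v j = ∅) := by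
  refine (((Dfn.sub 0 (i + 1)).and (Dfn.sub 0 (j + 1))).imp (Dfn.emp 0)).all.iff
    fun α M v hv => ?_
  simp only [cns_zero, cns_succ]
  constructor
  · intro h
    exact h _ (inter_subset_left.trans (hv i)) ⟨inter_subset_left, inter_subset_right⟩
  · rintro h S _ ⟨h1, h2⟩
    exact subset_empty_iff.1 ((subset_inter h1 h2).trans h.subset)

/-- disjointness -/
theorem disj (i j : ℕ) : Dfn (fun _ _ v => Disjoint (v i) (v j)) :=
  (interEmp i j).iff fun _ _ _ _ => disjoint_iff_inter_eq_empty.symm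

/-- inclusion in a union -/
theorem subUnion (i j k : ℕ) : Dfn (fun _ _ v => v i ⊆ v j ∪ v k) := by
  refine (((Dfn.sub (j + 1) 0).and (Dfn.sub (k + 1) 0)).imp (Dfn.sub (i + 1) 0)).all.iff
    fun α M v hv => ?_
  simp only [cns_zero, cns_succ]
  constructor
  · intro h
    exact h _ (union_subset (hv j) (hv k)) ⟨subset_union_left, subset_union_right⟩
  · rintro h S _ ⟨h1, h2⟩
    exact h.trans (union_subset h1 h2)

/-- independence of a union -/
theorem indUnion (i j : ℕ) : Dfn (fun _ M v => M.Indep (v i ∪ v j)) := by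
  refine (((Dfn.sub (i + 1) 0).and (Dfn.sub (j + 1) 0)).and (Dfn.ind 0)).ex.iff
    fun α M v hv => ?_
  simp only [cns_zero, cns_succ]
  constructor
  · rintro ⟨S, _, ⟨h1, h2⟩, h3⟩
    exact h3.subset (union_subset h1 h2)
  · intro h
    exact ⟨_, h.subset_ground, ⟨subset_union_left, subset_union_right⟩, h⟩

/-- splitting -/
theorem splits (i j : ℕ) : Dfn (fun _ M v => Splits M (v i) (v j)) := by
  refine ((circ 0).imp ((Dfn.sub 0 (j + 1)).imp ((Dfn.sub 0 (i + 1)).or (disj 0 (i + 1))))).all.iff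
    fun α M v hv => ?_
  simp only [cns_zero, cns_succ]
  exact ⟨fun h C hC => h C hC.subset_ground hC, fun h C _ => h C⟩

/-- separators -/
theorem sep (i : ℕ) : Dfn (fun _ M v => Sep M (v i)) := by
  refine ((circ 0).imp ((Dfn.sub 0 (i + 1)).or (disj 0 (i + 1)))).all.iff
    fun α M v hv => ?_
  simp only [cns_zero, cns_succ]
  exact ⟨fun h => ⟨hv i, fun C hC _ => h C hC.subset_ground hC⟩,
    fun h C _ hC => h.2 C hC hC.subset_ground⟩

/-- components -/
theorem comp (i : ℕ) : Dfn (fun _ M v => Comp M (v i)) :=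
  ((sep i).and ((Dfn.emp i).not.and ((sep 0).imp ((Dfn.sub 0 (i + 1)).imp
    ((Dfn.emp 0).not.imp (Dfn.sub (i + 1) 0)))).all)).iff fun _ _ _ _ => Iff.rfl

/-- connected sets -/
theorem conn (i : ℕ) : Dfn (fun _ M v => Conn M (v i)) :=
  ((Dfn.sub 0 (i + 1)).imp ((Dfn.emp 0).not.imp ((splits 0 (i + 1)).imp
    (Dfn.sub (i + 1) 0)))).all.iff fun _ _ _ _ => Iff.rfl

/-- relatively closed sets -/
theorem closedIn (i j : ℕ) : Dfn (fun _ M v => ClosedIn M (v i) (v j)) := by
  refine ((Dfn.sub 0 (i + 1)).imp (((basis 0 (j + 2)).and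
    ((indUnion 0 1).not.or (Dfn.sub 1 0))).ex.imp (Dfn.sub 0 (j + 1)))).allE.iff
    fun α M v hv => ?_
  simp only [cns_zero, cns_succ, cns_one]
  have hj2 : ∀ (x : α) (S : Set α), cns S (cns {x} v) (j + 2) = v j := fun x S => rfl
  simp only [hj2, singleton_subset_iff]
  constructor
  · rintro h x ⟨hx, hxK⟩
    have hxE := hv i hxK
    refine h x hxE hxK ?_
    obtain ⟨I, hI⟩ := M.exists_isBasis (v j) (hv j)
    refine ⟨I, hI.indep.subset_ground, hI, ?_⟩
    rw [← hI.closure_eq_closure, hI.indep.mem_closure_iff] at hx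
    rcases hx with hx | hx
    · left
      rw [union_singleton]
      exact hx.not_indep
    · exact Or.inr hx
  · rintro h x hxE hxK ⟨I, hIE, hI, h2⟩
    refine h ⟨?_, hxK⟩
    rw [← hI.closure_eq_closure, hI.indep.mem_closure_iff]
    rcases h2 with h2 | h2
    · left
      rw [union_singleton] at h2
      exact (Matroid.not_indep_iff (insert_subset hxE hIE)).1 h2
    · exact Or.inr h2

/-- the family -/
theorem fam (i k j : ℕ) : Dfn (fun _ M v => Fam M (v i) (v k) (v j)) :=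
  ((Dfn.sub j i).and ((Dfn.sub k j).and ((conn j).and (closedIn i j)))).iff
    fun _ _ _ _ => Iff.rfl

/-- the modular condition -/
theorem mod (c f g : ℕ) : Dfn (fun _ M v => Mod M (v c) (v f) (v g)) :=
  ((basis 1 (f + 2)).and ((basis 0 (g + 2)).and ((indUnion 1 0).and
    (interSub 1 0 (c + 2))))).ex.ex.iff fun _ _ _ _ => Iff.rfl

/-- chains -/
theorem isCh (i k : ℕ) : Dfn (fun _ M v => IsCh M (v i) (v k)) :=
  ((fam (i + 1) (k + 1) 0).imp ((fam (i + 2) (k + 2) 0).imp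
    ((Dfn.sub 1 0).or (Dfn.sub 0 1))).all).all.iff fun _ _ _ _ => Iff.rfl

/-- crossing -/
theorem crs (i k l : ℕ) : Dfn (fun _ M v => Crs M (v i) (v k) (v l)) :=
  ((fam (i + 1) (k + 1) 0).imp ((fam (i + 2) (l + 2) 0).imp
    ((interEmp 1 0).or (subUnion (i + 2) 1 0))).all).all.iff fun _ _ _ _ => Iff.rfl

/-- covering -/
theorem cov (i k l : ℕ) : Dfn (fun _ M v => Cov M (v i) (v k) (v l)) :=
  ((circ 0).imp ((Dfn.sub 0 (i + 1)).imp
    ((fam (i + 3) (k + 3) 1).and ((fam (i + 3) (l + 3) 0).and ((Dfn.sub 2 1).and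
      ((Dfn.sub 2 0).and (mod 2 1 0))))).ex.ex)).all.iff fun _ _ _ _ => Iff.rfl

/-- the property of a component -/
theorem theta (i : ℕ) : Dfn (fun _ M v => Theta M (v i)) :=
  ((Dfn.sub 1 (i + 2)).and ((Dfn.sub 0 (i + 2)).and ((isCh (i + 2) 1).and ((isCh (i + 2) 0).and
    ((crs (i + 2) 1 0).and (cov (i + 2) 1 0)))))).exE.exE.iff fun _ _ _ _ => Iff.rfl

/-- the final property -/
theorem final : Dfn (fun _ M _ => ∀ K, K ⊆ M.E → Comp M K → Theta M K) :=
  ((comp 0).imp (theta 0)).all.iff fun _ _ _ _ => Iff.rfl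

end Df

/-- a sentence characterising lattice path matroids among finite matroids -/
theorem exists_fml : ∃ φ : Fml, φ.IsSentence ∧ ∀ (α : Type) (M : Matroid α), M.E.Finite →
    ∀ v : ℕ → Set α, φ.Sat M v ↔ IsLPM M := by
  obtain ⟨φ, hφ⟩ := Df.final
  refine ⟨Fml.all (Fml.ren (fun _ => 0) φ), Fml.freeBelow_ren φ _ 1 (fun _ => Nat.one_pos),
    fun α M hM v => ?_⟩
  have : M.Finite := ⟨hM⟩
  have h1 : IsLPM M ↔ ∀ K, K ⊆ M.E → Comp M K → Theta M K :=
    ⟨fun h => h.theta, fun h => isLPM_of_theta h⟩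
  rw [h1]
  constructor
  · intro h
    have h2 := h ∅ (empty_subset _)
    rw [Fml.sat_ren] at h2
    exact (hφ α M _ (fun _ => empty_subset _)).1 h2
  · intro h S hS
    rw [Fml.sat_ren]
    exact (hφ α M _ (fun _ => hS)).2 h

end Pool.Agent.Y366.LPM
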