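import Pool.Agent.Y366.LPM.Basic

/-!
Lattice path matroids and the linear order criterion `LO`.
-/

set_option autoImplicit false

namespace Pool.Agent.Y366.LPM

open Set

/-- the height of a path after `i` steps: the number of north steps among the first `i` steps -/
noncomputable def ht {n : ℕ} (R : Fin n → Bool) (i : ℕ) : ℕ :=
  {j : Fin n | (j : ℕ) < i ∧ R j = true}.ncard

/-- the path `R` has exactly `r` north steps -/
def IsPath (m r : ℕ) (R : Fin (m + r) → Bool) : Prop := {j | R j = true}.ncard = r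

/-- lattice path matroids -/
def IsLPM {α : Type*} (M : Matroid α) : Prop :=
  ∃ (m r : ℕ) (P Q : Fin (m + r) → Bool), IsPath m r P ∧ IsPath m r Q ∧
    (∀ i, ht P i ≤ ht Q i) ∧
    ∃ e : Fin (m + r) → α, Function.Injective e ∧ range e = M.E ∧
      ∀ B, M.IsBase B ↔ ∃ R, IsPath m r R ∧ (∀ i, ht P i ≤ ht R i ∧ ht R i ≤ ht Q i) ∧
        B = e '' {j | R j = true}

/-- the linear order criterion -/
def LO {α L : Type*} [LinearOrder L] (M : Matroid α) (κ : α → L) : Prop :=
  InjOn κ M.E ∧ ∀ C, M.IsCircuit C → ∀ a ∈ C, ∀ b ∈ C, (∀ x ∈ C, κ a ≤ κ x ∧ κ x ≤ κ b) →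
    rk M {x ∈ M.E | κ x ≤ κ b} + rk M {x ∈ M.E | κ a ≤ κ x} ≤ rk M C + rk M M.E

section paths

variable {n : ℕ}

theorem ht_zero (R : Fin n → Bool) : ht R 0 = 0 := by
  simp [ht]

theorem ht_add (R : Fin n → Bool) {i k : ℕ} (h : i ≤ k) :
    ht R i + {j : Fin n | (i ≤ (j : ℕ) ∧ (j : ℕ) < k) ∧ R j = true}.ncard = ht R k := by
  unfold ht
  rw [← ncard_union_eq]
  · congr 1
    ext j
    simp only [mem_union, mem_ofPred_eq]
    constructor
    · rintro (⟨h1, h2⟩ | ⟨⟨h1, h2⟩, h3⟩)
      · exact ⟨by omega, h2⟩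
      · exact ⟨h2, h3⟩
    · rintro ⟨h1, h2⟩
      by_cases h3 : (j : ℕ) < i
      · exact Or.inl ⟨h3, h2⟩
      · exact Or.inr ⟨⟨by omega, h1⟩, h2⟩
  · rw [disjoint_left]
    rintro j ⟨h1, -⟩ ⟨⟨h2, -⟩, -⟩
    omega

theorem ht_mono (R : Fin n → Bool) {i k : ℕ} (h : i ≤ k) : ht R i ≤ ht R k := by
  have := ht_add R h
  omega

theorem ht_succ_true (R : Fin n → Bool) (j : Fin n) (h : R j = true) :
    ht R (j + 1) = ht R j + 1 := by
  have h1 := ht_add R (Nat.le_succ (j : ℕ))
  have h2 : {k : Fin n | ((j : ℕ) ≤ (k : ℕ) ∧ (k : ℕ) < (j : ℕ).succ) ∧ R k = true} = {j} := by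
    ext k
    simp only [mem_ofPred_eq, mem_singleton_iff]
    constructor
    · rintro ⟨⟨h3, h4⟩, -⟩
      exact Fin.ext (by omega)
    · rintro rfl
      exact ⟨⟨le_rfl, Nat.lt_succ_self _⟩, h⟩
  rw [h2, ncard_singleton] at h1
  exact h1.symm

theorem ht_succ_false (R : Fin n → Bool) (j : Fin n) (h : R j = false) :
    ht R (j + 1) = ht R j := by
  have h1 := ht_add R (Nat.le_succ (j : ℕ))
  have h2 : {k : Fin n | ((j : ℕ) ≤ (k : ℕ) ∧ (k : ℕ) < (j : ℕ).succ) ∧ R k = true} = ∅ := by
    ext k
    simp only [mem_ofPred_eq, mem_empty_iff_false, iff_false]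
    rintro ⟨⟨h3, h4⟩, h5⟩
    have : k = j := Fin.ext (by omega)
    rw [this, h] at h5
    exact absurd h5 (by simp)
  rw [h2, ncard_empty] at h1
  exact h1.symm

theorem ht_succ_le (R : Fin n → Bool) {i : ℕ} (hi : i < n) : ht R (i + 1) ≤ ht R i + 1 := by
  cases h : R ⟨i, hi⟩
  · have := ht_succ_false R ⟨i, hi⟩ h
    simp only at this
    omega
  · have := ht_succ_true R ⟨i, hi⟩ h
    simp only at this
    omega

theorem ht_ge (R : Fin n → Bool) {i : ℕ} (hi : n ≤ i) : ht R i = {j | R j = true}.ncard := by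
  unfold ht
  congr 1
  ext j
  have := j.2
  simp only [mem_ofPred_eq, and_iff_right_iff_imp]
  intro _
  omega

theorem exists_path (f : ℕ → ℕ) (h0 : f 0 = 0)
    (h1 : ∀ i < n, f i ≤ f (i + 1) ∧ f (i + 1) ≤ f i + 1) :
    ∃ R : Fin n → Bool, (∀ i ≤ n, ht R i = f i) ∧ ∀ j : Fin n, R j = true ↔ f j < f (j + 1) := by
  refine ⟨fun j => decide (f j < f (j + 1)), ?_, fun j => by simp⟩
  intro i
  induction i with
  | zero => intro _; rw [ht_zero, h0]
  | succ i ih =>
    intro hi
    have h2 := ih (by omega)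
    have h3 := h1 i (by omega)
    by_cases h : f i < f (i + 1)
    · have := ht_succ_true (fun j : Fin n => decide (f j < f (j + 1))) ⟨i, hi⟩ (by simpa using h)
      simp only at this
      rw [this, h2]
      omega
    · have := ht_succ_false (fun j : Fin n => decide (f j < f (j + 1))) ⟨i, hi⟩ (by simpa using h)
      simp only at this
      rw [this, h2]
      omega

end paths

section main

variable {α : Type*} {M : Matroid α} {n : ℕ} {e : Fin n → α}

/-- the elements with index below `i` -/
def pre (e : Fin n → α) (i : ℕ) : Set α := e '' {j | (j : ℕ) < i}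

/-- the elements with index at least `i` -/
def suf (e : Fin n → α) (i : ℕ) : Set α := e '' {j | i ≤ (j : ℕ)}

theorem ncard_inter_pre (he : Function.Injective e) (R : Fin n → Bool) (i : ℕ) :
    (e '' {j | R j = true} ∩ pre e i).ncard = ht R i := by
  unfold pre ht
  rw [← image_inter he, ncard_image_of_injective _ he]
  congr 1
  ext j
  simp only [mem_inter_iff, mem_ofPred_eq]
  tauto

theorem ncard_inter_seg (he : Function.Injective e) (R : Fin n → Bool) {i k : ℕ} (h : i ≤ k) :
    ht R i + (e '' {j | R j = true} ∩ (pre e k ∩ suf e i)).ncard = ht R k := by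
  rw [← ht_add R h]
  unfold pre suf
  rw [← image_inter he, ← image_inter he, ncard_image_of_injective _ he]
  congr 2
  ext j
  simp only [mem_inter_iff, mem_ofPred_eq]
  tauto

theorem ncard_inter_suf (he : Function.Injective e) (R : Fin n → Bool) (i : ℕ) :
    ht R i + (e '' {j | R j = true} ∩ suf e i).ncard = {j | R j = true}.ncard := by
  rw [← ht_ge R (le_max_right i n), ← ncard_inter_seg he R (le_max_left i n)]
  congr 2
  ext x
  simp only [mem_inter_iff, pre, mem_image, mem_ofPred_eq]
  constructor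
  · rintro ⟨⟨j, h1, rfl⟩, h2⟩
    exact ⟨⟨j, h1, rfl⟩, ⟨j, lt_of_lt_of_le j.2 (le_max_right _ _), rfl⟩, h2⟩
  · rintro ⟨h1, -, h2⟩
    exact ⟨h1, h2⟩

/-- a lattice path matroid satisfies the linear order criterion -/
theorem IsLPM.exists_LO (h : IsLPM M) : ∃ κ : α → ℕ, LO M κ := by
  classical
  obtain ⟨m, r, P, Q, hP, hQ, hPQ, e, he, hE, hB⟩ := h
  have : Finite (range e) := (finite_range e).to_subtype
  have : M.Finite := ⟨by rw [← hE]; exact finite_range e⟩
  -- rank
  have hr : rk M M.E = r := by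
    obtain ⟨B, hBB⟩ := M.exists_isBase
    obtain ⟨R, hR, hR2, hR3⟩ := (hB B).1 hBB
    rw [← ncard_basis hBB.isBasis_ground, hR3, ncard_image_of_injective _ he]
    exact hR
  -- independent sets
  have hseg : ∀ X, M.Indep X → ∀ i k, i ≤ k →
      (X ∩ (pre e k ∩ suf e i)).ncard + ht P i ≤ ht Q k := by
    intro X hX i k hik
    obtain ⟨B, hBB, hXB⟩ := hX.exists_isBase_superset
    obtain ⟨R, hR, hR2, hR3⟩ := (hB B).1 hBB
    have h1 := ncard_inter_seg he R hik
    rw [← hR3] at h1
    have h2 : (X ∩ (pre e k ∩ suf e i)).ncard ≤ (B ∩ (pre e k ∩ suf e i)).ncard :=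
      ncard_le_ncard (inter_subset_inter_left _ hXB)
        ((finite_sub hBB.subset_ground).subset inter_subset_left)
    have h3 := (hR2 i).1
    have h4 := (hR2 k).2
    omega
  have hpre : ∀ i, rk M (pre e i) ≤ ht Q i := by
    intro i
    have hsub : pre e i ⊆ M.E := by
      rw [← hE]
      exact image_subset_range _ _
    obtain ⟨I, hI⟩ := M.exists_isBasis (pre e i) hsub
    have h1 := hseg I hI.indep 0 i (Nat.zero_le _)
    rw [ht_zero] at h1
    have h2 : I ∩ (pre e i ∩ suf e 0) = I := by
      rw [inter_eq_left]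
      intro x hx
      refine ⟨hI.subset hx, ?_⟩
      obtain ⟨j, -, rfl⟩ := hI.subset hx
      exact ⟨j, Nat.zero_le _, rfl⟩
    rw [h2, ncard_basis hI] at h1
    omega
  have hsuf : ∀ i, rk M (suf e i) + ht P i ≤ r := by
    intro i
    have hsub : suf e i ⊆ M.E := by
      rw [← hE]
      exact image_subset_range _ _
    obtain ⟨I, hI⟩ := M.exists_isBasis (suf e i) hsub
    have h1 := hseg I hI.indep i (max i (m + r)) (le_max_left _ _)
    rw [ht_ge Q (le_max_right _ _)] at h1
    have h2 : I ∩ (pre e (max i (m + r)) ∩ suf e i) = I := by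
      rw [inter_eq_left]
      intro x hx
      refine ⟨?_, hI.subset hx⟩
      obtain ⟨j, -, rfl⟩ := hI.subset hx
      exact ⟨j, lt_of_lt_of_le j.2 (le_max_right _ _), rfl⟩
    rw [h2, ncard_basis hI] at h1
    have hQ' : {j | Q j = true}.ncard = r := hQ
    omega
  -- sufficient condition for independence
  have hind : ∀ X ⊆ M.E, (∀ i k, i ≤ k → (X ∩ (pre e k ∩ suf e i)).ncard + ht P i ≤ ht Q k) →
      M.Indep X := by
    intro X hXE hX
    -- the greedy path
    let f : ℕ → ℕ := fun k => Nat.rec 0 (fun k f => max (ht P (k + 1))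
      (f + if ∃ h : k < m + r, e ⟨k, h⟩ ∈ X then 1 else 0)) k
    have hf0 : f 0 = 0 := rfl
    have hfs : ∀ k, f (k + 1) = max (ht P (k + 1))
      (f k + if ∃ h : k < m + r, e ⟨k, h⟩ ∈ X then 1 else 0) := fun k => rfl
    have hfP : ∀ k, ht P k ≤ f k := by
      intro k
      cases k with
      | zero => rw [ht_zero]; exact Nat.zero_le _
      | succ k => rw [hfs]; exact le_max_left _ _
    have hfX : ∀ k, ∃ i ≤ k, f k = ht P i + (X ∩ (pre e k ∩ suf e i)).ncard := by
      intro k
      induction k with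
      | zero =>
        refine ⟨0, le_rfl, ?_⟩
        have : X ∩ (pre e 0 ∩ suf e 0) = ∅ := by
          ext x
          simp [pre]
        rw [this, ht_zero, hf0, ncard_empty]
      | succ k ih =>
        obtain ⟨i, hi, hi2⟩ := ih
        rw [hfs]
        rcases le_total (ht P (k + 1))
          (f k + if ∃ h : k < m + r, e ⟨k, h⟩ ∈ X then 1 else 0) with h1 | h1
        · refine ⟨i, by omega, ?_⟩
          rw [max_eq_right h1, hi2, add_assoc]
          congr 1
          split_ifs with h2
          · obtain ⟨hk, hkX⟩ := h2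
            have h3 : X ∩ (pre e (k + 1) ∩ suf e i) =
                insert (e ⟨k, hk⟩) (X ∩ (pre e k ∩ suf e i)) := by
              ext x
              simp only [mem_inter_iff, mem_insert_iff, pre, suf, mem_image, mem_ofPred_eq]
              constructor
              · rintro ⟨hx, ⟨j, hj, rfl⟩, ⟨j', hj', hjj⟩⟩
                have := he hjj
                subst this
                by_cases hjk : (j' : ℕ) = k
                · left
                  congr 1
                  exact Fin.ext hjk
                · right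
                  exact ⟨hx, ⟨j', by omega, rfl⟩, ⟨j', hj', rfl⟩⟩
              · rintro (rfl | ⟨hx, ⟨j, hj, rfl⟩, ⟨j', hj', hjj⟩⟩)
                · exact ⟨hkX, ⟨_, Nat.lt_succ_self k, rfl⟩, ⟨_, hi, rfl⟩⟩
                · exact ⟨hx, ⟨j, by omega, rfl⟩, ⟨j', hj', hjj⟩⟩
            rw [h3, ncard_insert_of_notMem ?_ ((finite_sub hXE).subset inter_subset_left)]
            rintro ⟨-, ⟨j, hj, hj2⟩, -⟩
            have := he hj2
            rw [this] at hj
            exact lt_irrefl k hj
          · have h3 : X ∩ (pre e (k + 1) ∩ suf e i) = X ∩ (pre e k ∩ suf e i) := by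
              ext x
              simp only [mem_inter_iff, pre, suf, mem_image, mem_ofPred_eq]
              constructor
              · rintro ⟨hx, ⟨j, hj, rfl⟩, h5⟩
                refine ⟨hx, ⟨j, ?_, rfl⟩, h5⟩
                by_contra hjk
                have hjk' : (j : ℕ) = k := by omega
                refine h2 ⟨hjk' ▸ j.2, ?_⟩
                have : (⟨k, hjk' ▸ j.2⟩ : Fin (m + r)) = j := Fin.ext hjk'.symm
                rw [this]
                exact hx
              · rintro ⟨hx, ⟨j, hj, rfl⟩, h5⟩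
                exact ⟨hx, ⟨j, by omega, rfl⟩, h5⟩
            rw [h3, add_zero]
        · refine ⟨k + 1, le_rfl, ?_⟩
          have : X ∩ (pre e (k + 1) ∩ suf e (k + 1)) = ∅ := by
            ext x
            simp only [mem_inter_iff, pre, suf, mem_image, mem_ofPred_eq, mem_empty_iff_false,
              iff_false, not_and, not_exists]
            rintro - ⟨j, hj, rfl⟩ j' hj' hjj
            have := he hjj
            subst this
            omega
          rw [max_eq_left h1, this, ncard_empty, add_zero]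
    have hfQ : ∀ k, f k ≤ ht Q k := by
      intro k
      obtain ⟨i, hi, hi2⟩ := hfX k
      have := hX i k hi
      omega
    have hstep : ∀ i < m + r, f i ≤ f (i + 1) ∧ f (i + 1) ≤ f i + 1 := by
      intro i hi
      have h1 := hfP i
      have h2 := ht_succ_le P hi
      rw [hfs]
      constructor
      · exact le_max_of_le_right (Nat.le_add_right _ _)
      · refine max_le (by omega) ?_
        split_ifs <;> omega
    obtain ⟨R, hR1, hR2⟩ := exists_path (n := m + r) f hf0 hstep
    have hRtop : IsPath m r R := by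
      have h1 := hR1 (m + r) le_rfl
      rw [ht_ge R le_rfl] at h1
      have h2 := hfP (m + r)
      have h3 := hfQ (m + r)
      rw [ht_ge P le_rfl] at h2
      rw [ht_ge Q le_rfl] at h3
      unfold IsPath at *
      omega
    have hRb : ∀ i, ht P i ≤ ht R i ∧ ht R i ≤ ht Q i := by
      intro i
      rcases le_total i (m + r) with hi | hi
      · rw [hR1 i hi]
        exact ⟨hfP i, hfQ i⟩
      · rw [ht_ge P hi, ht_ge R hi, ht_ge Q hi]
        unfold IsPath at *
        omega
    have hbase : M.IsBase (e '' {j | R j = true}) := (hB _).2 ⟨R, hRtop, hRb, rfl⟩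
    refine hbase.indep.subset ?_
    intro x hx
    have hxE := hXE hx
    rw [← hE] at hxE
    obtain ⟨j, rfl⟩ := hxE
    refine ⟨j, ?_, rfl⟩
    rw [mem_ofPred_eq, hR2, hfs, if_pos ⟨j.2, hx⟩]
    exact lt_of_lt_of_le (Nat.lt_succ_self _) (le_max_right _ _)
  -- the labelling
  have hsurj : ∀ x ∈ M.E, ∃ j : Fin (m + r), e j = x := by
    intro x hx
    rw [← hE] at hx
    exact hx
  let κ : α → ℕ := fun x => if h : ∃ j : Fin (m + r), e j = x then (h.choose : ℕ) else 0
  have hκ : ∀ j, κ (e j) = j := by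
    intro j
    have h : ∃ j' : Fin (m + r), e j' = e j := ⟨j, rfl⟩
    have h1 : κ (e j) = h.choose := dif_pos h
    rw [h1]
    exact congrArg _ (he h.choose_spec)
  have hpreκ : ∀ i, {x ∈ M.E | κ x ≤ i} = pre e (i + 1) := by
    intro i
    ext x
    simp only [mem_ofPred_eq, pre, mem_image]
    constructor
    · rintro ⟨hx, h1⟩
      obtain ⟨j, rfl⟩ := hsurj x hx
      rw [hκ] at h1
      exact ⟨j, by omega, rfl⟩
    · rintro ⟨j, hj, rfl⟩
      refine ⟨?_, ?_⟩
      · rw [← hE]; exact mem_range_self j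
      · rw [hκ]; omega
  have hsufκ : ∀ i, {x ∈ M.E | i ≤ κ x} = suf e i := by
    intro i
    ext x
    simp only [mem_ofPred_eq, suf, mem_image]
    constructor
    · rintro ⟨hx, h1⟩
      obtain ⟨j, rfl⟩ := hsurj x hx
      rw [hκ] at h1
      exact ⟨j, by omega, rfl⟩
    · rintro ⟨j, hj, rfl⟩
      refine ⟨?_, ?_⟩
      · rw [← hE]; exact mem_range_self j
      · rw [hκ]; omega
  refine ⟨κ, ?_, ?_⟩
  · intro x hx y hy hxy
    obtain ⟨j, rfl⟩ := hsurj x hx
    obtain ⟨j', rfl⟩ := hsurj y hy
    rw [hκ, hκ] at hxy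
    rw [Fin.ext hxy]
  · intro C hC a ha b hb hab
    rw [hpreκ, hsufκ]
    have hCdep : ¬ M.Indep C := hC.not_indep
    have h1 : ¬ ∀ i k, i ≤ k → (C ∩ (pre e k ∩ suf e i)).ncard + ht P i ≤ ht Q k :=
      fun h => hCdep (hind C hC.subset_ground h)
    push Not at h1
    obtain ⟨i, k, hik, h1⟩ := h1
    -- the segment contains C
    have h2 : C ∩ (pre e k ∩ suf e i) = C := by
      by_contra hne
      have hss : C ∩ (pre e k ∩ suf e i) ⊂ C :=
        ssubset_of_subset_of_ne inter_subset_left hne
      have h3 := hseg _ (hC.ssubset_indep hss) i k hik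
      rw [inter_assoc, inter_self] at h3
      omega
    rw [h2] at h1
    have hbk : κ b + 1 ≤ k := by
      have : b ∈ C ∩ (pre e k ∩ suf e i) := h2.symm ▸ hb
      obtain ⟨j, hj, rfl⟩ := this.2.1
      rw [hκ]
      exact hj
    have hai : i ≤ κ a := by
      have : a ∈ C ∩ (pre e k ∩ suf e i) := h2.symm ▸ ha
      obtain ⟨j, hj, rfl⟩ := this.2.2
      rw [hκ]
      exact hj
    have h3 := ht_mono Q hbk
    have h4 := ht_mono P hai
    have h5 := hpre (κ b + 1)
    have h6 := hsuf (κ a)
    have h7 := rk_circuit hC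
    omega

theorem rk_empty : rk M ∅ = 0 := by
  unfold rk
  rw [M.eRk_empty]
  rfl

theorem rk_insert_le [M.Finite] (x : α) (X : Set α) : rk M (insert x X) ≤ rk M X + 1 := by
  have h1 : rk M (insert x X) ≤ rk M {x} + rk M X := by
    rw [insert_eq]
    exact rk_union_le _ _
  have h2 : rk M {x} ≤ 1 := by
    have := M.eRk_singleton_le x
    rw [← coe_rk] at this
    exact_mod_cast this
  omega

/-- a finite matroid with the linear order criterion is a lattice path matroid -/
theorem LO.isLPM {L : Type*} [LinearOrder L] [M.Finite] {κ : α → L} (h : LO M κ) :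
    IsLPM M := by
  classical
  obtain ⟨hinj, hLO⟩ := h
  let s : Finset L := M.ground_finite.toFinset.image κ
  have hscard : s.card = M.E.ncard := by
    rw [Finset.card_image_of_injOn (by simpa using hinj), ncard_eq_toFinset_card _ M.ground_finite]
  obtain ⟨r, hr⟩ : ∃ r, r = rk M M.E := ⟨_, rfl⟩
  have hrn : r ≤ M.E.ncard := by
    obtain ⟨B, hB⟩ := M.exists_isBase
    rw [hr, ← ncard_basis hB.isBasis_ground]
    exact ncard_le_ncard hB.subset_ground M.ground_finite
  obtain ⟨m, hm⟩ : ∃ m, s.card = m + r := ⟨M.E.ncard - r, by omega⟩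
  let e0 := s.orderEmbOfFin hm
  have hex : ∀ j, ∃ x ∈ M.E, κ x = e0 j := by
    intro j
    have : e0 j ∈ s := Finset.orderEmbOfFin_mem _ _ _
    obtain ⟨x, hx, hx2⟩ := Finset.mem_image.1 this
    exact ⟨x, by simpa using hx, hx2⟩
  choose e heE heκ using hex
  have he : Function.Injective e := by
    intro j j' hjj
    have : e0 j = e0 j' := by rw [← heκ, ← heκ, hjj]
    exact e0.injective this
  have hrange : range e = M.E := by
    refine Subset.antisymm (by rintro _ ⟨j, rfl⟩; exact heE j) ?_
    intro x hx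
    have h1 : κ x ∈ (s : Set L) := Finset.mem_coe.2 (Finset.mem_image.2 ⟨x, by simpa using hx, rfl⟩)
    rw [← Finset.range_orderEmbOfFin s hm] at h1
    obtain ⟨j, hj⟩ := h1
    refine ⟨j, hinj (heE j) hx ?_⟩
    rw [heκ]
    exact hj
  have hlt : ∀ j j', κ (e j) ≤ κ (e j') ↔ (j : ℕ) ≤ j' := by
    intro j j'
    rw [heκ, heκ, e0.le_iff_le]
    exact Iff.rfl
  have hpre : ∀ j : Fin (m + r), {x ∈ M.E | κ x ≤ κ (e j)} = pre e (j + 1) := by
    intro j
    ext x
    simp only [mem_ofPred_eq, pre, mem_image]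
    constructor
    · rintro ⟨hx, h1⟩
      rw [← hrange] at hx
      obtain ⟨j', rfl⟩ := hx
      rw [hlt] at h1
      exact ⟨j', by omega, rfl⟩
    · rintro ⟨j', hj, rfl⟩
      exact ⟨heE _, (hlt _ _).2 (by omega)⟩
  have hsuf : ∀ j : Fin (m + r), {x ∈ M.E | κ (e j) ≤ κ x} = suf e j := by
    intro j
    ext x
    simp only [mem_ofPred_eq, suf, mem_image]
    constructor
    · rintro ⟨hx, h1⟩
      rw [← hrange] at hx
      obtain ⟨j', rfl⟩ := hx
      rw [hlt] at h1
      exact ⟨j', h1, rfl⟩
    · rintro ⟨j', hj, rfl⟩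
      exact ⟨heE _, (hlt _ _).2 hj⟩
  have hpreE : ∀ i, pre e i ⊆ M.E := fun i => by rw [← hrange]; exact image_subset_range _ _
  have hsufE : ∀ i, suf e i ⊆ M.E := fun i => by rw [← hrange]; exact image_subset_range _ _
  have hpre0 : pre e 0 = ∅ := by simp [pre]
  have hsuf0 : suf e 0 = M.E := by
    rw [← hrange]
    simp [suf]
  have hpren : pre e (m + r) = M.E := by
    rw [← hrange]
    simp [pre]
  have hsufn : suf e (m + r) = ∅ := by
    ext x
    simp only [suf, mem_image, mem_ofPred_eq, mem_empty_iff_false, iff_false, not_exists]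
    rintro j ⟨hj, -⟩
    omega
  have hpremono : ∀ i, pre e i ⊆ pre e (i + 1) := by
    rintro i _ ⟨j, hj, rfl⟩
    exact ⟨j, Nat.lt_succ_of_lt hj, rfl⟩
  have hsufmono : ∀ i, suf e (i + 1) ⊆ suf e i := by
    rintro i _ ⟨j, hj, rfl⟩
    exact ⟨j, (Nat.le_succ i).trans hj, rfl⟩
  have hpresucc : ∀ i (hi : i < m + r), pre e (i + 1) ⊆ insert (e ⟨i, hi⟩) (pre e i) := by
    rintro i hi _ ⟨j, hj, rfl⟩
    rcases Nat.lt_succ_iff_lt_or_eq.1 hj with h1 | h1
    · exact Or.inr ⟨j, h1, rfl⟩
    · left
      congr 1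
      exact Fin.ext h1
  have hsufsucc : ∀ i (hi : i < m + r), suf e i ⊆ insert (e ⟨i, hi⟩) (suf e (i + 1)) := by
    rintro i hi _ ⟨j, hj, rfl⟩
    rcases Nat.eq_or_lt_of_le (show i ≤ (j : ℕ) from hj) with h1 | h1
    · left
      congr 1
      exact Fin.ext h1.symm
    · exact Or.inr ⟨j, h1, rfl⟩
  have hunion : ∀ i, r ≤ rk M (pre e i) + rk M (suf e i) := by
    intro i
    refine hr.le.trans (le_trans (rk_mono ?_) (rk_union_le _ _))
    rw [← hrange]
    rintro _ ⟨j, rfl⟩
    rcases lt_or_ge (j : ℕ) i with h1 | h1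
    · exact Or.inl ⟨j, h1, rfl⟩
    · exact Or.inr ⟨j, h1, rfl⟩
  obtain ⟨Q, hQ, -⟩ := exists_path (n := m + r) (fun i => rk M (pre e i))
    (by simp only [hpre0, rk_empty]) (fun i hi => ⟨rk_mono (hpremono i),
      (rk_mono (hpresucc i hi)).trans (rk_insert_le _ _)⟩)
  obtain ⟨P, hP, -⟩ := exists_path (n := m + r) (fun i => r - rk M (suf e i))
    (by simp only [hsuf0, hr, Nat.sub_self]) (fun i hi => by
      have h1 : rk M (suf e (i + 1)) ≤ rk M (suf e i) := rk_mono (hsufmono i)
      have h2 := (rk_mono (M := M) (hsufsucc i hi)).trans (rk_insert_le _ _)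
      have h3 : rk M (suf e i) ≤ r := (rk_mono (hsufE i)).trans hr.ge
      omega)
  have hQp : IsPath m r Q := by
    have := hQ (m + r) le_rfl
    rw [ht_ge Q le_rfl] at this
    simp only [hpren, ← hr] at this
    exact this
  have hPp : IsPath m r P := by
    have := hP (m + r) le_rfl
    rw [ht_ge P le_rfl] at this
    simp only [hsufn, rk_empty, Nat.sub_zero] at this
    exact this
  have hfin : ∀ (R R' : Fin (m + r) → Bool), IsPath m r R → IsPath m r R' → ∀ i, m + r ≤ i →
      ht R i = ht R' i := by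
    intro R R' hR hR' i hi
    rw [ht_ge R hi, ht_ge R' hi, hR, hR']
  refine ⟨m, r, P, Q, hPp, hQp, ?_, e, he, hrange, ?_⟩
  · intro i
    rcases le_total i (m + r) with hi | hi
    · rw [hP i hi, hQ i hi]
      have := hunion i
      omega
    · exact (hfin P Q hPp hQp i hi).le
  intro B
  constructor
  · intro hB
    -- the path of a basis
    let R : Fin (m + r) → Bool := fun j => decide (e j ∈ B)
    have hBR : B = e '' {j | R j = true} := by
      ext x
      simp only [mem_image, mem_ofPred_eq, R, decide_eq_true_eq]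
      constructor
      · intro hx
        have := hB.subset_ground hx
        rw [← hrange] at this
        obtain ⟨j, rfl⟩ := this
        exact ⟨j, hx, rfl⟩
      · rintro ⟨j, hj, rfl⟩
        exact hj
    have hRp : IsPath m r R := by
      have h1 := ncard_basis hB.isBasis_ground
      rw [hBR, ncard_image_of_injective _ he, ← hr] at h1
      exact h1
    refine ⟨R, hRp, ?_, hBR⟩
    intro i
    rcases le_total i (m + r) with hi | hi
    · have h1 := ncard_inter_pre he R i
      have h2 := ncard_inter_suf he R i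
      rw [← hBR] at h1 h2
      have h3 : (B ∩ pre e i).ncard ≤ rk M (pre e i) :=
        ncard_le_rk (hB.indep.subset inter_subset_left) inter_subset_right
      have h4 : (B ∩ suf e i).ncard ≤ rk M (suf e i) :=
        ncard_le_rk (hB.indep.subset inter_subset_left) inter_subset_right
      rw [hP i hi, hQ i hi]
      have h5 : {j | R j = true}.ncard = r := hRp
      omega
    · exact ⟨(hfin P R hPp hRp i hi).le, (hfin R Q hRp hQp i hi).le⟩
  · rintro ⟨R, hRp, hRb, rfl⟩
    have hcard : (e '' {j | R j = true}).ncard = r := by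
      rw [ncard_image_of_injective _ he]
      exact hRp
    have hsubE : e '' {j | R j = true} ⊆ M.E := by
      rw [← hrange]
      exact image_subset_range _ _
    have hind : M.Indep (e '' {j | R j = true}) := by
      by_contra hdep
      obtain ⟨C, hCB, hC⟩ := ((M.not_indep_iff hsubE).1 hdep).exists_isCircuit_subset
      have hCf : C.Finite := finite_sub hC.subset_ground
      obtain ⟨a, ha, ha2⟩ := hCf.exists_minimalFor κ C hC.nonempty
      obtain ⟨b, hb, hb2⟩ := hCf.exists_maximalFor κ C hC.nonempty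
      have hab : ∀ x ∈ C, κ a ≤ κ x ∧ κ x ≤ κ b := by
        intro x hx
        constructor
        · by_contra hlt'
          have := ha2 hx (le_of_not_ge hlt')
          exact hlt' this
        · by_contra hlt'
          have := hb2 hx (le_of_not_ge hlt')
          exact hlt' this
      have h1 := hLO C hC a ha b hb hab
      obtain ⟨ja, -, rfl⟩ := hCB ha
      obtain ⟨jb, -, rfl⟩ := hCB hb
      rw [hpre, hsuf] at h1
      have hjab : (ja : ℕ) ≤ jb := by
        have := (hab _ ha).2
        rwa [hlt] at this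
      have h2 := ncard_inter_seg he R (show (ja : ℕ) ≤ jb + 1 by omega)
      have h3 : C.ncard ≤ (e '' {j | R j = true} ∩ (pre e (jb + 1) ∩ suf e ja)).ncard := by
        refine ncard_le_ncard ?_ ((finite_sub hsubE).subset inter_subset_left)
        intro x hx
        have hx2 := hab x hx
        obtain ⟨j, hj, rfl⟩ := hCB hx
        rw [hlt, hlt] at hx2
        exact ⟨⟨j, hj, rfl⟩, ⟨j, by show (j : ℕ) < jb + 1; omega, rfl⟩, ⟨j, hx2.1, rfl⟩⟩
      have h4 := (hRb (jb + 1)).2
      have h5 := (hRb ja).1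
      rw [hQ _ jb.2] at h4
      rw [hP _ ja.2.le] at h5
      have h6 := rk_circuit hC
      have h7 : rk M (suf e ja) ≤ r := (rk_mono (hsufE ja)).trans hr.ge
      have h8 : rk M (pre e (jb : ℕ).succ) = rk M (pre e (jb + 1)) := rfl
      omega
    have hbasis : M.IsBasis (e '' {j | R j = true}) M.E :=
      basis_of hind hsubE Subset.rfl (by rw [hcard, hr])
    exact Matroid.isBasis_ground_iff.1 hbasis

end main

end Pool.Agent.Y366.LPM
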