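import Pool.Agent.Y366.LPM.Comp

/-!
A finite matroid all of whose components satisfy `Theta` is a lattice path matroid.
-/

set_option autoImplicit false

namespace Pool.Agent.Y366.LPM

open Set

variable {α : Type*} {M : Matroid α}

theorem Mod.rk_le [M.Finite] {C F G K : Set α} (h : Mod M C F G) (hF : F ⊆ K) (hG : G ⊆ K) :
    rk M F + rk M G ≤ rk M C + rk M K := by
  obtain ⟨I, hI, J, hJ, hIF, hJG, hIJ, hC⟩ := h
  rw [← ncard_basis hIF, ← ncard_basis hJG]
  have h1 := ncard_union_add_ncard_inter I J (finite_sub hI) (finite_sub hJ)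
  have h2 : (I ∪ J).ncard ≤ rk M K :=
    ncard_le_rk hIJ (union_subset (hIF.subset.trans hF) (hJG.subset.trans hG))
  have h3 : (I ∩ J).ncard ≤ rk M C := ncard_le_rk (hIF.indep.subset inter_subset_left) hC
  omega

/-- labels for the elements of one component -/
theorem exists_label [M.Finite] {K : Set α} (hK : K ⊆ M.E) (h : Theta M K) :
    ∃ g : α → ℕ, ∀ C, M.IsCircuit C → C ⊆ K → ∃ F G, F ⊆ K ∧ G ⊆ K ∧ C ⊆ F ∧ C ⊆ G ∧
      rk M F + rk M G ≤ rk M C + rk M K ∧ (∀ x ∈ K, ∀ y ∈ K, x ∈ F → y ∉ F → g x < g y) ∧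
      (∀ x ∈ K, ∀ y ∈ K, x ∈ G → y ∉ G → g y < g x) := by
  classical
  obtain ⟨e0, -, e1, -, -, -, h1, h2, h3, h4⟩ := h
  have hKf : K.Finite := finite_sub hK
  -- the chain
  let Ch : Set (Set α) := {I | Fam M K {e0} I ∨ ∃ G, Fam M K {e1} G ∧ I = K \ G}
  have hsub : ∀ I ∈ Ch, I ⊆ K := by
    rintro I (hI | ⟨G, -, rfl⟩)
    · exact hI.1
    · exact sdiff_subset
  have hfin : Ch.Finite := hKf.finite_subsets.subset hsub
  have hchain : ∀ I ∈ Ch, ∀ J ∈ Ch, I ⊆ J ∨ J ⊆ I := by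
    have hcross : ∀ F G, Fam M K {e0} F → Fam M K {e1} G → F ⊆ K \ G ∨ K \ G ⊆ F := by
      intro F G hF hG
      rcases h3 F (hF.1.trans hK) hF G (hG.1.trans hK) hG with h5 | h5
      · left
        intro x hx
        refine ⟨hF.1 hx, fun hxG => ?_⟩
        have : x ∈ F ∩ G := ⟨hx, hxG⟩
        rw [h5] at this
        exact this
      · right
        rintro x ⟨hx, hxG⟩
        rcases h5 hx with h6 | h6
        · exact h6
        · exact absurd h6 hxG
    rintro I (hI | ⟨G, hG, rfl⟩) J (hJ | ⟨G', hG', rfl⟩)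
    · exact h1 I (hI.1.trans hK) hI J (hJ.1.trans hK) hJ
    · exact hcross I G' hI hG'
    · exact (hcross J G hJ hG).symm
    · rcases h2 G (hG.1.trans hK) hG G' (hG'.1.trans hK) hG' with h5 | h5
      · exact Or.inr (sdiff_subset_sdiff_right h5)
      · exact Or.inl (sdiff_subset_sdiff_right h5)
  let g : α → ℕ := fun x => {I ∈ Ch | x ∉ I}.ncard
  have hg : ∀ I ∈ Ch, ∀ x y, x ∈ I → y ∉ I → g x < g y := by
    intro I hI x y hx hy
    refine ncard_lt_ncard ?_ (hfin.subset (sep_subset _ _))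
    refine ⟨?_, fun hcon => ?_⟩
    · rintro J ⟨hJ, hxJ⟩
      refine ⟨hJ, fun hyJ => ?_⟩
      rcases hchain I hI J hJ with h5 | h5
      · exact hxJ (h5 hx)
      · exact hy (h5 hyJ)
    · exact (hcon ⟨hI, hy⟩).2 hx
  refine ⟨g, fun C hC hCK => ?_⟩
  obtain ⟨F, -, G, -, hF, hG, hCF, hCG, hmod⟩ := h4 C hC.subset_ground hC hCK
  refine ⟨F, G, hF.1, hG.1, hCF, hCG, hmod.rk_le hF.1 hG.1, ?_, ?_⟩
  · intro x _ y _ hxF hyF
    exact hg F (Or.inl hF) x y hxF hyF
  · intro x hx y hy hxG hyG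
    exact hg (K \ G) (Or.inr ⟨G, hG, rfl⟩) y x ⟨hy, hyG⟩ (fun h => h.2 hxG)

theorem isLPM_of_theta [M.Finite] (h : ∀ K, K ⊆ M.E → Comp M K → Theta M K) : IsLPM M := by
  classical
  obtain ⟨lab, hlab⟩ := countable_iff_exists_injOn.1 M.ground_finite.countable
  obtain ⟨c, hc⟩ := countable_iff_exists_injOn.1 M.ground_finite.finite_subsets.countable
  have hex : ∀ K : Set α, ∃ g : α → ℕ, Comp M K →
      ∀ C, M.IsCircuit C → C ⊆ K → ∃ F G, F ⊆ K ∧ G ⊆ K ∧ C ⊆ F ∧ C ⊆ G ∧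
      rk M F + rk M G ≤ rk M C + rk M K ∧ (∀ x ∈ K, ∀ y ∈ K, x ∈ F → y ∉ F → g x < g y) ∧
      (∀ x ∈ K, ∀ y ∈ K, x ∈ G → y ∉ G → g y < g x) := by
    intro K
    by_cases hK : Comp M K
    · obtain ⟨g, hg⟩ := exists_label hK.1.1 (h K hK.1.1 hK)
      exact ⟨g, fun _ => hg⟩
    · exact ⟨fun _ => 0, fun h => absurd h hK⟩
  choose g hg using hex
  let κ : α → ℕ ×ₗ (ℕ ×ₗ ℕ) := fun x =>
    toLex (c (compOf M x), toLex (g (compOf M x) x, lab x))
  have hκlt : ∀ x y, κ x < κ y ↔ c (compOf M x) < c (compOf M y) ∨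
      (c (compOf M x) = c (compOf M y) ∧ (g (compOf M x) x < g (compOf M y) y ∨
        (g (compOf M x) x = g (compOf M y) y ∧ lab x < lab y))) := by
    intro x y
    simp only [κ, Prod.Lex.toLex_lt_toLex]
  refine LO.isLPM (κ := κ) ⟨?_, ?_⟩
  · intro x hx y hy hxy
    have h1 : lab x = lab y := by
      have := congrArg (fun z => (ofLex (ofLex z).2).2) hxy
      exact this
    exact hlab hx hy h1
  · intro C hC a ha b hb hab
    have haE := hC.subset_ground ha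
    have hbE := hC.subset_ground hb
    obtain ⟨K, hKdef⟩ : ∃ K, K = compOf M a := ⟨_, rfl⟩
    have hK : Comp M K := hKdef ▸ comp_compOf haE
    have hKE : K ⊆ M.E := hK.1.1
    have hCK : C ⊆ K := hK.1.sub_of_mem hC ha (hKdef ▸ mem_compOf haE)
    have hcomp : ∀ x ∈ K, compOf M x = K := by
      intro x hx
      rw [hKdef]
      exact compOf_eq haE (hKdef ▸ hx)
    have hcne : ∀ x ∈ M.E, x ∉ K → c (compOf M x) ≠ c K := by
      intro x hx hxK heq
      have := hc (show compOf M x ∈ {t | t ⊆ M.E} from compOf_sub x)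
        (show K ∈ {t | t ⊆ M.E} from hKE) heq
      exact hxK (this ▸ mem_compOf hx)
    obtain ⟨F, G, hFK, hGK, hCF, hCG, hrk, hF, hG⟩ := hg K hK C hC hCK
    -- the parts inside the component
    have hpreE : {x ∈ M.E | κ x ≤ κ b} ⊆ M.E := fun x hx => hx.1
    have hsufE : {x ∈ M.E | κ a ≤ κ x} ⊆ M.E := fun x hx => hx.1
    rw [hK.1.rk_add hpreE, hK.1.rk_add hsufE, hK.1.rk_add (Subset.refl M.E)]
    have h1 : {x ∈ M.E | κ x ≤ κ b} ∩ K ⊆ F := by
      rintro x ⟨⟨hx, hxb⟩, hxK⟩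
      by_contra hxF
      refine absurd hxb (not_le_of_gt ?_)
      rw [hκlt, hcomp x hxK, hcomp b (hCK hb)]
      exact Or.inr ⟨rfl, Or.inl (hF b (hCK hb) x hxK (hCF hb) hxF)⟩
    have h2 : {x ∈ M.E | κ a ≤ κ x} ∩ K ⊆ G := by
      rintro x ⟨⟨hx, hxa⟩, hxK⟩
      by_contra hxG
      refine absurd hxa (not_le_of_gt ?_)
      rw [hκlt, hcomp x hxK, hcomp a (hCK ha)]
      exact Or.inr ⟨rfl, Or.inl (hG a (hCK ha) x hxK (hCG ha) hxG)⟩
    -- the parts outside
    let S : Set α := {x ∈ M.E | c (compOf M x) < c K}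
    have hS : Sep M S := by
      refine ⟨fun x hx => hx.1, fun D hD _ => ?_⟩
      by_cases hne : ∃ y ∈ D, y ∈ S
      · left
        obtain ⟨y, hy, hy2⟩ := hne
        intro z hz
        have hzy : compOf M z = compOf M y :=
          compOf_eq hy2.1 ((sep_compOf y).sub_of_mem hD hy (mem_compOf hy2.1) hz)
        refine ⟨hD.subset_ground hz, ?_⟩
        rw [hzy]
        exact hy2.2
      · right
        rw [disjoint_left]
        intro y hy hy2
        exact hne ⟨y, hy, hy2⟩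
    have h3 : {x ∈ M.E | κ x ≤ κ b} \ K ⊆ (M.E \ K) ∩ S := by
      rintro x ⟨⟨hx, hxb⟩, hxK⟩
      refine ⟨⟨hx, hxK⟩, hx, ?_⟩
      by_contra hcon
      have hne := hcne x hx hxK
      have hlt : κ b < κ x := by
        rw [hκlt, hcomp b (hCK hb)]
        left
        omega
      exact absurd hxb (not_le_of_gt hlt)
    have h4 : {x ∈ M.E | κ a ≤ κ x} \ K ⊆ (M.E \ K) \ S := by
      rintro x ⟨⟨hx, hxa⟩, hxK⟩
      refine ⟨⟨hx, hxK⟩, fun hxS => ?_⟩
      have hlt : κ x < κ a := by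
        rw [hκlt, hcomp a (hCK ha)]
        exact Or.inl hxS.2
      exact absurd hxa (not_le_of_gt hlt)
    have h5 := hS.rk_add (X := M.E \ K) sdiff_subset
    have h6 := rk_mono (M := M) h1
    have h7 := rk_mono (M := M) h2
    have h8 := rk_mono (M := M) h3
    have h9 := rk_mono (M := M) h4
    have h10 : M.E ∩ K = K := inter_eq_right.2 hKE
    rw [h10]
    omega

end Pool.Agent.Y366.LPM
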